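import Pool.Agent.Helper1.ZN.Defs2
import Pool.Agent.Helper28.ZN.B1

/-!
# ZA-B: block Hessenberg matrices, general case
-/

namespace Pool.Agent.Helper1.ZN

open Finset Polynomial
open Pool.Agent.Helper47.SAP (Pat Realizes Irred SpecArb IsD Mt)

/-- adding the back arc to column `γ ≤ 4` -/
theorem B2_corner {L : Finset (ℕ × ℕ)} {N γ : ℕ} {f : ℝ → ℝ} (hγ : γ ≤ 4) (hN : 6 ≤ N)
    (hrow : ∀ p ∈ L, 5 ≤ p.1)
    (hL : (N - 1, γ) ∉ L) (hf : RzL L N f) {c : ℝ} (hc : c ≠ 0) :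
    RzL (L ∪ {(N - 1, γ)}) N (fun x => f x - c * x ^ γ) := by
  obtain ⟨a, ha, hD⟩ := hf
  refine ⟨fun i j => if i = N - 1 ∧ j = γ then c else a i j, ?_, ?_⟩
  · intro i j
    rw [Finset.mem_union, Finset.mem_singleton, Prod.mk.injEq]
    by_cases h : i = N - 1 ∧ j = γ
    · simp [h, hc]
    · simp only [h, if_false, ha, or_false]
  · intro x
    obtain ⟨D, ⟨hD0, hDs⟩, hDm⟩ := hD x
    have ha0 : a (N - 1) γ = 0 := by
      by_contra h
      exact hL ((ha _ _).1 h)
    have hpow : ∀ k, k ≤ 5 → D k = x ^ k := by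
      intro k
      induction k with
      | zero => intro _; simpa using hD0
      | succ k ih =>
        intro hk
        rw [hDs k (by omega), ih (by omega)]
        have h0 : ∑ i ∈ range (k + 1), a k i * D i = 0 := by
          refine Finset.sum_eq_zero fun i _ => ?_
          have h1 : a k i = 0 := by
            by_contra h
            have := hrow _ ((ha _ _).1 h)
            simp only at this
            omega
          rw [h1, zero_mul]
        rw [h0]
        ring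
    refine ⟨fun k => if k < N then D k else f x - c * x ^ γ, ⟨?_, ?_⟩, ?_⟩
    · simp only [show (0 : ℕ) < N by omega, if_true, hD0]
    · intro k hk
      have hsum : ∀ i ∈ range (k + 1), (if k = N - 1 ∧ i = γ then c else a k i) *
          (if i < N then D i else f x - c * x ^ γ) = a k i * D i +
          (if k = N - 1 then (if i = γ then c * x ^ γ else 0) else 0) := by
        intro i hi
        rw [Finset.mem_range] at hi
        rw [if_pos (by omega : i < N)]
        by_cases h1 : k = N - 1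
        · by_cases h2 : i = γ
          · rw [h1, h2]
            simp [ha0, hpow γ (by omega)]
          · simp [h1, h2]
        · simp [h1]
      rw [Finset.sum_congr rfl hsum, Finset.sum_add_distrib]
      by_cases h1 : k = N - 1
      · have h2 : k + 1 = N := by omega
        have h3 : ∑ i ∈ range (k + 1), (if i = γ then c * x ^ γ else 0) = c * x ^ γ := by
          rw [Finset.sum_ite_eq' (range (k + 1)) γ (fun _ => c * x ^ γ)]
          rw [if_pos (Finset.mem_range.2 (by omega))]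
        simp only [if_pos h1]
        rw [h3, if_neg (by omega), if_pos hk]
        have h4 := hDs k hk
        rw [h2, hDm] at h4
        rw [h4, h2]
        ring
      · simp only [h1, if_false, Finset.sum_const_zero, add_zero]
        rw [if_pos (by omega : k + 1 < N), if_pos hk]
        exact hDs k hk
    · simp

/-- companion block of order 6 -/
def B2_L6 : Finset (ℕ × ℕ) := (range 6).image (fun p => (5, p))

theorem B2_six {f : ℝ → ℝ} (hf : OkI6 f) : RzL B2_L6 6 f := by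
  obtain ⟨w, hw, hfx⟩ := hf
  refine ⟨fun i j => if i = 5 ∧ j < 6 then w j else 0, ?_, ?_⟩
  · intro i j
    unfold B2_L6
    simp only [Finset.mem_image, Finset.mem_range, Prod.mk.injEq]
    split_ifs with h
    · simp only [ne_eq, hw j h.2, not_false_eq_true, true_iff]
      exact ⟨j, h.2, h.1.symm, rfl⟩
    · simp only [ne_eq, not_true_eq_false, false_iff]
      rintro ⟨p, hp, h1, h2⟩
      exact h ⟨h1.symm, by omega⟩
  · intro x
    refine ⟨fun j => if j < 6 then x ^ j else f x, ⟨by simp, ?_⟩, by simp⟩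
    intro k hk
    have hx := hfx x
    interval_cases k
    · norm_num [Finset.sum_range_succ]
    · norm_num [Finset.sum_range_succ]
      ring
    · norm_num [Finset.sum_range_succ]
      ring
    · norm_num [Finset.sum_range_succ]
      ring
    · norm_num [Finset.sum_range_succ]
      ring
    · norm_num [Finset.sum_range_succ] at hx ⊢
      rw [hx]
      ring

/-- type IV -/
def B2_L4 : Finset (ℕ × ℕ) := {(0, 0), (3, 2), (3, 1), (3, 0)}

theorem B2_four {f : ℝ → ℝ} (hf : OkIV f) : RzL B2_L4 4 f := by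
  obtain ⟨t, w2, w3, w4, ht, h2, h3, h4, hfx⟩ := hf
  refine ⟨fun i j => if i = 0 ∧ j = 0 then t else if i = 3 ∧ j = 2 then w2 else
    if i = 3 ∧ j = 1 then w3 else if i = 3 ∧ j = 0 then w4 else 0, ?_, ?_⟩
  · intro i j
    unfold B2_L4
    simp only [Finset.mem_insert, Finset.mem_singleton, Prod.mk.injEq]
    split_ifs with g1 g2 g3 g4
    · simp [ht, g1]
    · simp [h2, g2]
    · simp [h3, g3]
    · simp [h4, g4]
    · simp [g1, g2, g3, g4]
  · intro x
    refine ⟨fun j => if j = 0 then 1 else if j = 1 then x - t else if j = 2 then x * (x - t) else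
      if j = 3 then x ^ 2 * (x - t) else f x, ⟨by simp, ?_⟩, by simp⟩
    intro k hk
    have hx := hfx x
    interval_cases k
    · norm_num [Finset.sum_range_succ]
    · norm_num [Finset.sum_range_succ]
    · norm_num [Finset.sum_range_succ]
      ring
    · norm_num [Finset.sum_range_succ]
      rw [hx]
      ring

/-- type III -/
def B2_L3 : Finset (ℕ × ℕ) := {(0, 0), (2, 1), (2, 0)}

theorem B2_three {f : ℝ → ℝ} (hf : OkIII f) : RzL B2_L3 3 f := by
  obtain ⟨t, w2, w3, ht, h2, h3, hfx⟩ := hf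
  refine ⟨fun i j => if i = 0 ∧ j = 0 then t else if i = 2 ∧ j = 1 then w2 else
    if i = 2 ∧ j = 0 then w3 else 0, ?_, ?_⟩
  · intro i j
    unfold B2_L3
    simp only [Finset.mem_insert, Finset.mem_singleton, Prod.mk.injEq]
    split_ifs with g1 g2 g3
    · simp [ht, g1]
    · simp [h2, g2]
    · simp [h3, g3]
    · simp [g1, g2, g3]
  · intro x
    refine ⟨fun j => if j = 0 then 1 else if j = 1 then x - t else if j = 2 then x * (x - t) else
      f x, ⟨by simp, ?_⟩, by simp⟩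
    intro k hk
    have hx := hfx x
    interval_cases k
    · norm_num [Finset.sum_range_succ]
    · norm_num [Finset.sum_range_succ]
    · norm_num [Finset.sum_range_succ]
      rw [hx]
      ring

/-- appending `n` copies of a block -/
def B2_rep (L B : Finset (ℕ × ℕ)) (m b : ℕ) : ℕ → Finset (ℕ × ℕ)
  | 0 => L
  | n + 1 => B2_rep L B m b n ∪ B1_shift (m + b * n) B

theorem B2_mem_rep (L B : Finset (ℕ × ℕ)) (m b n i j : ℕ) :
    (i, j) ∈ B2_rep L B m b n ↔ (i, j) ∈ L ∨ ∃ k < n, (i, j) ∈ B1_shift (m + b * k) B := by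
  induction n with
  | zero => simp [B2_rep]
  | succ n ih =>
    rw [B2_rep, Finset.mem_union, ih]
    constructor
    · rintro ((h | ⟨k, hk, h⟩) | h)
      · exact Or.inl h
      · exact Or.inr ⟨k, by omega, h⟩
      · exact Or.inr ⟨n, by omega, h⟩
    · rintro (h | ⟨k, hk, h⟩)
      · exact Or.inl (Or.inl h)
      · by_cases hkn : k = n
        · subst hkn
          exact Or.inr h
        · exact Or.inl (Or.inr ⟨k, by omega, h⟩)

theorem B2_rep_lt {L B : Finset (ℕ × ℕ)} {m b : ℕ} (hL : ∀ p ∈ L, p.1 < m)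
    (hB : ∀ p ∈ B, p.1 < b) (n : ℕ) : ∀ p ∈ B2_rep L B m b n, p.1 < m + b * n := by
  rintro ⟨i, j⟩ hp
  rw [B2_mem_rep] at hp
  rcases hp with h | ⟨k, hk, h⟩
  · have := hL _ h
    simp only at this ⊢
    omega
  · rw [B1_mem_shift] at h
    obtain ⟨h1, h2, h3⟩ := h
    have := hB _ h3
    simp only at this ⊢
    have h4 : b * (k + 1) ≤ b * n := Nat.mul_le_mul_left b hk
    rw [Nat.mul_add, Nat.mul_one] at h4
    omega

theorem B2_rep_rz {L B : Finset (ℕ × ℕ)} {m b : ℕ} (hL : ∀ p ∈ L, p.1 < m)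
    (hB : ∀ p ∈ B, p.1 < b) {f : ℝ → ℝ} (hf : RzL L m f) {g : ℕ → ℝ → ℝ} (n : ℕ)
    (hg : ∀ i < n, RzL B b (g i)) :
    RzL (B2_rep L B m b n) (m + b * n) (fun x => f x * ∏ i ∈ range n, g i x) := by
  induction n with
  | zero => simpa [B2_rep] using hf
  | succ n ih =>
    have h := B1_append (B2_rep_lt hL hB n) (ih fun i hi => hg i (by omega)) (hg n (by omega))
    rw [B2_rep, show m + b * (n + 1) = m + b * n + b by ring]
    convert h using 2 with x
    rw [Finset.prod_range_succ]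
    ring

/-- the fixed blocks -/
def B2_base : Finset (ℕ × ℕ) :=
  (((B2_L6 ∪ B1_shift 6 B1_LS) ∪ B1_shift 30 B1_L2) ∪ B1_shift 34 B2_L4) ∪ B1_shift 38 B2_L4

theorem B2_base_eq : B2_base = (range 6).image (fun p => (5, p))
    ∪ {(6, 6)} ∪ ((Icc 2 24).erase 3).image (fun l => (29, 30 - l))
    ∪ {(31, 30), (33, 31), (33, 32), (33, 33)}
    ∪ {(34, 34), (37, 36), (37, 35), (37, 34)}
    ∪ {(38, 38), (41, 40), (41, 39), (41, 38)} := by
  decide

theorem B2_base_lt : ∀ p ∈ B2_base, p.1 < 42 ∧ 5 ≤ p.1 ∧ (p.2 < 5 → p.1 = 5) := by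
  decide

theorem B2_base_rz {f6 f0 f1 fa fb : ℝ → ℝ} (h6 : OkI6 f6) (h0 : OkS f0) (h1 : OkII f1)
    (ha : OkIV fa) (hb : OkIV fb) :
    RzL B2_base 42 (fun x => f6 x * f0 x * f1 x * fa x * fb x) := by
  have e1 := B1_append (m := 6) (b := 24) (by decide) (B2_six h6) (B1_special h0)
  have e2 := B1_append (m := 30) (b := 4) (by decide) e1 (B1_two h1)
  have e3 := B1_append (m := 34) (b := 4) (by decide) e2 (B2_four ha)
  exact B1_append (m := 38) (b := 4) (by decide) e3 (B2_four hb)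

/-- the pattern without the back arc -/
def B2_all (K M e : ℕ) : Finset (ℕ × ℕ) :=
  B2_rep (B2_rep (B2_rep B2_base B2_L3 42 3 e) B1_L1 (42 + 3 * e) 4 K) B1_LQ
    (42 + 3 * e + 4 * K) 2 M

theorem B2_L3_lt : ∀ p ∈ B2_L3, p.1 < 3 := by decide
theorem B1_L1_lt : ∀ p ∈ B1_L1, p.1 < 4 := by decide
theorem B1_LQ_lt : ∀ p ∈ B1_LQ, p.1 < 2 := by decide

theorem B2_all_rz (K M e : ℕ) {f : ℝ → ℝ} {fc g q : ℕ → ℝ → ℝ} (hf : RzL B2_base 42 f)
    (hc : ∀ i < e, OkIII (fc i)) (hg : ∀ i < K, OkI (g i))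
    (hq : ∀ i < M, OkQ (q i)) :
    RzL (B2_all K M e) (42 + 3 * e + 4 * K + 2 * M) (fun x => f x *
      (∏ i ∈ range e, fc i x) * (∏ i ∈ range K, g i x) * (∏ i ∈ range M, q i x)) := by
  have b0 : ∀ p ∈ B2_base, p.1 < 42 := fun p hp => (B2_base_lt p hp).1
  have b1 := B2_rep_lt b0 B2_L3_lt e
  have b2 := B2_rep_lt b1 B1_L1_lt K
  have e1 := B2_rep_rz b0 B2_L3_lt hf e (fun i hi => B2_three (hc i hi))
  have e2 := B2_rep_rz b1 B1_L1_lt e1 K (fun i hi => B1_one (hg i hi))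
  exact B2_rep_rz b2 B1_LQ_lt e2 M (fun i hi => B1_quad (hq i hi))

theorem B2_mem_L3 (i j : ℕ) : (i, j) ∈ B2_L3 ↔ (i = 0 ∧ j = 0) ∨ (i = 2 ∧ j = 1) ∨
    (i = 2 ∧ j = 0) := by
  unfold B2_L3
  simp only [Finset.mem_insert, Finset.mem_singleton, Prod.mk.injEq]

theorem B2_mem_L1 (i j : ℕ) : (i, j) ∈ B1_L1 ↔ i = 3 ∧ j < 4 := by
  unfold B1_L1
  simp only [Finset.mem_image, Finset.mem_range, Prod.mk.injEq]
  constructor
  · rintro ⟨p, h1, h2, h3⟩
    omega
  · rintro ⟨h1, h2⟩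
    exact ⟨j, h2, h1.symm, rfl⟩

theorem B2_mem_LQ (i j : ℕ) : (i, j) ∈ B1_LQ ↔ i = 1 ∧ j < 2 := by
  unfold B1_LQ
  simp only [Finset.mem_image, Finset.mem_range, Prod.mk.injEq]
  constructor
  · rintro ⟨p, h1, h2, h3⟩
    omega
  · rintro ⟨h1, h2⟩
    exact ⟨j, h2, h1.symm, rfl⟩

theorem B2_mem_all (K M e i j : ℕ) : (i, j) ∈ B2_all K M e ↔ (i, j) ∈ B2_base ∨
    (∃ k < e, (i = 42 + 3 * k ∧ j = 42 + 3 * k) ∨ (i = 44 + 3 * k ∧ j = 43 + 3 * k) ∨
      (i = 44 + 3 * k ∧ j = 42 + 3 * k)) ∨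
    (∃ k < K, i = 45 + 3 * e + 4 * k ∧ 42 + 3 * e + 4 * k ≤ j ∧ j < 46 + 3 * e + 4 * k) ∨
    (∃ k < M, i = 43 + 3 * e + 4 * K + 2 * k ∧ 42 + 3 * e + 4 * K + 2 * k ≤ j ∧
      j < 44 + 3 * e + 4 * K + 2 * k) := by
  unfold B2_all
  rw [B2_mem_rep, B2_mem_rep, B2_mem_rep]
  simp only [B1_mem_shift, B2_mem_L3, B2_mem_L1, B2_mem_LQ, or_assoc]
  refine or_congr_right (or_congr ?_ (or_congr ?_ ?_))
  · refine exists_congr fun k => and_congr_right fun _ => ?_
    omega
  · refine exists_congr fun k => and_congr_right fun _ => ?_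
    omega
  · refine exists_congr fun k => and_congr_right fun _ => ?_
    omega

theorem B2_all_lower (K M e γ : ℕ) :
    lower2 K M e γ = B2_all K M e ∪ {(41 + 3 * e + 4 * K + 2 * M, γ)} := by
  ext ⟨i, j⟩
  unfold lower2
  rw [← B2_base_eq]
  rw [Finset.mem_union (s := B2_all K M e), B2_mem_all, Finset.mem_union, Finset.mem_union,
    Finset.mem_union, Finset.mem_union, Finset.mem_union, Finset.mem_union]
  refine or_congr_left ?_
  simp only [or_assoc]
  refine or_congr_right ?_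
  simp only [Finset.mem_image, Finset.mem_product, Finset.mem_range, Prod.mk.injEq]
  constructor
  · rintro (⟨k, hk, h1, h2⟩ | ⟨k, hk, h1, h2⟩ | ⟨k, hk, h1, h2⟩ | ⟨⟨k, q⟩, ⟨hk, hq⟩, h1, h2⟩ |
      ⟨⟨k, q⟩, ⟨hk, hq⟩, h1, h2⟩)
    · exact Or.inl ⟨k, hk, Or.inl ⟨h1.symm, h2.symm⟩⟩
    · exact Or.inl ⟨k, hk, Or.inr (Or.inl ⟨h1.symm, h2.symm⟩)⟩
    · exact Or.inl ⟨k, hk, Or.inr (Or.inr ⟨h1.symm, h2.symm⟩)⟩
    · simp only at hk hq h1 h2
      exact Or.inr (Or.inl ⟨k, hk, by omega, by omega, by omega⟩)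
    · simp only at hk hq h1 h2
      exact Or.inr (Or.inr ⟨k, hk, by omega, by omega, by omega⟩)
  · rintro (⟨k, hk, (⟨h1, h2⟩ | ⟨h1, h2⟩ | ⟨h1, h2⟩)⟩ | ⟨k, hk, h1, h2, h3⟩ |
      ⟨k, hk, h1, h2, h3⟩)
    · exact Or.inl ⟨k, hk, h1.symm, h2.symm⟩
    · exact Or.inr (Or.inl ⟨k, hk, h1.symm, h2.symm⟩)
    · exact Or.inr (Or.inr (Or.inl ⟨k, hk, h1.symm, h2.symm⟩))
    · refine Or.inr (Or.inr (Or.inr (Or.inl ⟨(k, j - (42 + 3 * e + 4 * k)), ⟨hk, ?_⟩, ?_, ?_⟩)))
      · simp only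
        omega
      · simp only
        omega
      · simp only
        omega
    · refine Or.inr (Or.inr (Or.inr (Or.inr ⟨(k, j - (42 + 3 * e + 4 * K + 2 * k)), ⟨hk, ?_⟩, ?_,
        ?_⟩)))
      · simp only
        omega
      · simp only
        omega
      · simp only
        omega

theorem rz_blocks2 (K M e γ : ℕ) (hγ : γ ≤ 4) (hM : 0 < M) (f6 f0 f1 fa fb : ℝ → ℝ)
    (fc g q : ℕ → ℝ → ℝ) (h6 : OkI6 f6) (h0 : OkS f0) (h1 : OkII f1) (ha : OkIV fa)
    (hb : OkIV fb) (hc : ∀ i < e, OkIII (fc i)) (hg : ∀ i < K, OkI (g i))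
    (hq : ∀ i < M, OkQ (q i)) (c : ℝ) (hc0 : c ≠ 0) :
    RzL (lower2 K M e γ) (ord2 K M e) (fun x => f6 x * f0 x * f1 x * fa x * fb x *
      (∏ i ∈ range e, fc i x) * (∏ i ∈ range K, g i x) * (∏ i ∈ range M, q i x) - c * x ^ γ) := by
  have h := B2_all_rz K M e (B2_base_rz h6 h0 h1 ha hb) hc hg hq
  have hN : 42 + 3 * e + 4 * K + 2 * M - 1 = 41 + 3 * e + 4 * K + 2 * M := by omega
  have h2 := B2_corner hγ (by omega) (by
    rintro ⟨i, j⟩ hp
    rw [B2_mem_all] at hp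
    simp only
    rcases hp with hp | ⟨k, hk, hp⟩ | ⟨k, hk, hp⟩ | ⟨k, hk, hp⟩
    · exact (B2_base_lt _ hp).2.1
    · omega
    · omega
    · omega) (by
    intro hp
    rw [B2_mem_all] at hp
    rcases hp with hp | ⟨k, hk, hp⟩ | ⟨k, hk, hp⟩ | ⟨k, hk, hp⟩
    · have := (B2_base_lt _ hp).2.2
      simp only at this
      omega
    · omega
    · omega
    · omega) h hc0
  rw [hN] at h2
  rw [B2_all_lower]
  exact h2

end Pool.Agent.Helper1.ZN
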